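import Pool.Agent.Lib.MP_0c183c_P9S.Supply
import Pool.Agent.Lib.MP_0c183c_co_P9W.Exists
import Pool.Agent.Lib.MP_0c183c_co_P9W.Room
import Pool.Agent.Lib.MP_0c183c_P9A.Sem

/-! # Bounded order, given that there is no world -/

set_option autoImplicit false

namespace Pool.Agent.Lib.MP_0c183c_P9S

open Pool.Agent.Lib.MP_0c183c_co_P9W (World Level Generic world_of_levels room_closure)
open Pool.Agent.Lib.MP_0c183c_P9A (KK)

/-- The big field. -/
abbrev BigΩ (K : Type) [Field K] : Type := AlgebraicClosure (FractionRing (MvPolynomial ℕ K))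

/-- The independent elements. -/
noncomputable def bigT (K : Type) [Field K] (i : ℕ) : BigΩ K :=
  algebraMap (MvPolynomial ℕ K) (BigΩ K) (MvPolynomial.X i)

theorem bigT_indep (K : Type) [Field K] : AlgebraicIndependent K (bigT K) := by
  have h1 : Function.Injective (algebraMap (MvPolynomial ℕ K) (BigΩ K)) := by
    rw [IsScalarTower.algebraMap_eq (MvPolynomial ℕ K) (FractionRing (MvPolynomial ℕ K)) (BigΩ K)]
    exact (algebraMap (FractionRing (MvPolynomial ℕ K)) (BigΩ K)).injective.comp
      (IsFractionRing.injective (MvPolynomial ℕ K) (FractionRing (MvPolynomial ℕ K)))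
  have h2 := (MvPolynomial.algebraicIndependent_X ℕ K).map'
    (f := IsScalarTower.toAlgHom K (MvPolynomial ℕ K) (BigΩ K)) h1
  exact h2

theorem world_of_not_bok (K : Type) [Field K] [CharP K 2] [Algebra (ZMod 2) K]
    (h : ∀ c s₀, ¬ BOK K c s₀) : Nonempty World := by
  have : CharP (BigΩ K) 2 := charP_of_injective_algebraMap (algebraMap K (BigΩ K)).injective 2
  exact world_of_levels (BigΩ K) (room_closure K) (levels_of_not_bok (bigT_indep K) h)

/-- **Bounded order**, if there is no world. -/
theorem bok (no_world : World → False) : ∃ c s₀, BOK KK c s₀ := by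
  by_contra h
  push Not at h
  exact (world_of_not_bok KK h).elim no_world

end Pool.Agent.Lib.MP_0c183c_P9S
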