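import Pool.Agent.Lib.MP_0c183c_P9A.Interface

/-! # The generating function of `cr + lin x` vanishes at matrices of corank at least five -/

set_option autoImplicit false

namespace Pool.Agent.Lib.MP_0c183c_P9S

open Matrix Finset Module
open Pool.Agent.Lib.MP_0c183c_co (IsPM InG pms cr lin T mem_pms mask mask_symm mask_zero det_mask
  det_mask₂ detS detS_eq)
open Pool.Agent.Lib.MP_0c183c_P9A (fx)

variable {n : ℕ} {Ω : Type*} [Field Ω]

/-- A nonzero kernel vector which vanishes on a small set. -/
theorem exists_ker_vanish (A : Matrix (Fin n) (Fin n) Ω) (W : Finset (Fin n))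
    (h : A.rank + W.card < n) :
    ∃ g : Fin n → Ω, g ≠ 0 ∧ A.mulVec g = 0 ∧ ∀ w ∈ W, g w = 0 := by
  classical
  set N := LinearMap.ker A.mulVecLin with hN
  have h1 : A.rank + finrank Ω N = n := by
    have := LinearMap.finrank_range_add_finrank_ker A.mulVecLin
    rw [Module.finrank_pi, Fintype.card_fin] at this
    exact this
  let r : N →ₗ[Ω] (W → Ω) := (LinearMap.funLeft Ω Ω (fun w : W => (w : Fin n))).domRestrict N
  have h2 : finrank Ω (W → Ω) < finrank Ω N := by
    rw [Module.finrank_pi, Fintype.card_coe]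
    omega
  obtain ⟨g, hg, hg0⟩ := (Submodule.ne_bot_iff _).1 (LinearMap.ker_ne_bot_of_finrank_lt h2)
  refine ⟨g.1, fun h0 => hg0 (Subtype.ext h0), ?_, fun w hw => ?_⟩
  · exact LinearMap.mem_ker.1 g.2
  · have h3 : r g = 0 := LinearMap.mem_ker.1 hg
    have h4 := congrFun h3 ⟨w, hw⟩
    simpa [r] using h4

theorem det_mask_zero (A : Matrix (Fin n) (Fin n) Ω) (h : A.rank + 4 < n) (i k : Fin n) :
    (mask i k A).det = 0 := by
  obtain ⟨g, hg0, hg, hW⟩ := exists_ker_vanish A {i, k} (by
    have := Finset.card_le_two (a := i) (b := k)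
    omega)
  rw [← Matrix.exists_mulVec_eq_zero_iff]
  refine ⟨g, hg0, ?_⟩
  ext v
  rw [Pi.zero_apply, Matrix.mulVec, dotProduct]
  by_cases hv : v = i ∨ v = k
  · refine sum_eq_zero fun w _ => ?_
    unfold mask
    split_ifs with h1
    · rw [hW w (by simpa using h1.1 hv), mul_zero]
    · rw [zero_mul]
  · have h2 := congrFun hg v
    rw [Pi.zero_apply, Matrix.mulVec, dotProduct] at h2
    rw [← h2]
    refine sum_congr rfl fun w _ => ?_
    unfold mask
    split_ifs with h1
    · rfl
    · rw [hW w (by
        have : w = i ∨ w = k := by tauto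
        simpa using this), mul_zero, mul_zero]

theorem det_mask₂_zero (A : Matrix (Fin n) (Fin n) Ω) (h : A.rank + 4 < n) (i k j l : Fin n) :
    (mask i k (mask j l A)).det = 0 := by
  obtain ⟨g, hg0, hg, hW⟩ := exists_ker_vanish A {i, k, j, l} (by
    have := Finset.card_le_four (a := i) (b := k) (c := j) (d := l)
    omega)
  have hWi : g i = 0 := hW i (by simp)
  have hWk : g k = 0 := hW k (by simp)
  have hWj : g j = 0 := hW j (by simp)
  have hWl : g l = 0 := hW l (by simp)
  rw [← Matrix.exists_mulVec_eq_zero_iff]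
  refine ⟨g, hg0, ?_⟩
  ext v
  rw [Pi.zero_apply, Matrix.mulVec, dotProduct]
  by_cases hv : v = i ∨ v = k
  · refine sum_eq_zero fun w _ => ?_
    unfold mask
    split_ifs with h1 h2
    · rcases h1.1 hv with rfl | rfl
      · rw [hWi, mul_zero]
      · rw [hWk, mul_zero]
    · rw [zero_mul]
    · rw [zero_mul]
  · by_cases hv' : v = j ∨ v = l
    · refine sum_eq_zero fun w _ => ?_
      unfold mask
      split_ifs with h1 h2
      · rcases h2.1 hv' with rfl | rfl
        · rw [hWj, mul_zero]
        · rw [hWl, mul_zero]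
      · rw [zero_mul]
      · rw [zero_mul]
    · have h2 := congrFun hg v
      rw [Pi.zero_apply, Matrix.mulVec, dotProduct] at h2
      rw [← h2]
      refine sum_congr rfl fun w _ => ?_
      by_cases hw : g w = 0
      · rw [hw, mul_zero, mul_zero]
      · have h3 : ¬ (w = i ∨ w = k) := by
          rintro (rfl | rfl)
          · exact hw hWi
          · exact hw hWk
        have h4 : ¬ (w = j ∨ w = l) := by
          rintro (rfl | rfl)
          · exact hw hWj
          · exact hw hWl
        have e1 : ((v = i ∨ v = k) ↔ (w = i ∨ w = k)) := iff_of_false hv h3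
        have e2 : ((v = j ∨ v = l) ↔ (w = j ∨ w = l)) := iff_of_false hv' h4
        simp only [mask]
        rw [if_pos e1, if_pos e2]

/-- **Degree two.** -/
theorem T_fx_eq_zero [CharP Ω 2] (A : Matrix (Fin n) (Fin n) Ω) (hs : ∀ u v, A u v = A v u)
    (h0 : ∀ v, A v v = 0) (hr : A.rank + 4 < n) (x : Fin n → Fin n → ZMod 2) :
    T (fx Ω x) A = 0 := by
  have h1 : T (fun m => ZMod.castHom (dvd_refl 2) Ω (cr m)) A = 0 := by
    rw [← detS_eq A hs h0]
    unfold detS
    refine sum_eq_zero fun i _ => sum_eq_zero fun j _ => sum_eq_zero fun k _ =>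
      sum_eq_zero fun l _ => ?_
    rw [det_mask₂_zero A hr, ite_self]
  have h2 : T (fun m => ZMod.castHom (dvd_refl 2) Ω (lin x m)) A = 0 := by
    have e1 : T (fun m => ZMod.castHom (dvd_refl 2) Ω (lin x m)) A =
        ∑ v, ∑ w, if v < w then ZMod.castHom (dvd_refl 2) Ω (x v w) * (mask v w A).det else 0 := by
      simp only [det_mask A hs h0, T]
      have e2 : ∀ v w : Fin n, (if v < w then ZMod.castHom (dvd_refl 2) Ω (x v w) *
          ∑ m ∈ pms n, (if m v = w then (1 : Ω) else 0) * ∏ u, A u (m u) else 0) =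
          ∑ m ∈ pms n, (if v < w then (if m v = w then ZMod.castHom (dvd_refl 2) Ω (x v w) else 0)
            else 0) * ∏ u, A u (m u) := by
        intro v w
        split_ifs
        · rw [mul_sum]
          refine sum_congr rfl fun m _ => ?_
          split_ifs <;> simp
        · simp
      simp only [e2]
      have e3 : ∀ m : Equiv.Perm (Fin n), ZMod.castHom (dvd_refl 2) Ω (lin x m) = ∑ v, ∑ w,
          (if v < w then (if m v = w then ZMod.castHom (dvd_refl 2) Ω (x v w) else 0) else 0) := by
        intro m
        simp only [lin, map_sum]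
        refine sum_congr rfl fun v _ => ?_
        rw [sum_eq_single (m v)]
        · simp only [if_true]
          split_ifs <;> simp
        · intro w _ hw
          simp [Ne.symm hw]
        · simp
      simp only [e3, sum_mul]
      simp only [sum_comm (s := (univ : Finset (Fin n))) (t := pms n)]
    rw [e1]
    refine sum_eq_zero fun v _ => sum_eq_zero fun w _ => ?_
    rw [det_mask_zero A hr, mul_zero, ite_self]
  have h3 : T (fx Ω x) A = T (fun m => ZMod.castHom (dvd_refl 2) Ω (cr m)) A +
      T (fun m => ZMod.castHom (dvd_refl 2) Ω (lin x m)) A := by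
    simp only [T, fx, map_add, add_mul, sum_add_distrib]
  rw [h3, h1, h2, add_zero]

end Pool.Agent.Lib.MP_0c183c_P9S
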