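import Pool.Agent.Lib.MP_0c183c_P9A.Interface

/-! # Taylor expansion of the generating function along a matching -/

set_option autoImplicit false

namespace Pool.Agent.Lib.MP_0c183c_P9S

open Matrix Finset
open Pool.Agent.Lib.MP_0c183c_co (IsPM InG pms cr lin T mem_pms)

variable {M n : ℕ} {R : Type*} [CommRing R]

/-- `v` is one of the vertices of the pairs in `B`. -/
def CovB (e : Fin M × Bool → Fin n) (B : Finset (Fin M)) (v : Fin n) : Prop :=
  ∃ i ∈ B, ∃ a, e (i, a) = v

instance (e : Fin M × Bool → Fin n) (B : Finset (Fin M)) : DecidablePred (CovB e B) :=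
  fun _ => by unfold CovB; infer_instance

/-- `v`, `w` are the two vertices of the pair `i`. -/
def Pair (e : Fin M × Bool → Fin n) (i : Fin M) (v w : Fin n) : Prop :=
  (v = e (i, false) ∧ w = e (i, true)) ∨ (v = e (i, true) ∧ w = e (i, false))

instance (e : Fin M × Bool → Fin n) (i : Fin M) (v w : Fin n) : Decidable (Pair e i v w) := by
  unfold Pair; infer_instance

/-- The pairs in `B` are isolated with weight one, the weights of the other pairs are changed
by `τ`. -/
def Amod (e : Fin M × Bool → Fin n) (B : Finset (Fin M)) (τ : Fin M → R)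
    (A : Matrix (Fin n) (Fin n) R) : Matrix (Fin n) (Fin n) R := fun v w =>
  if CovB e B v ∨ CovB e B w then (if ∃ i ∈ B, Pair e i v w then 1 else 0)
  else A v w + ∑ i, if Pair e i v w then τ i else 0

/-- The squares of the Taylor coefficients. -/
def cS (f : Equiv.Perm (Fin n) → R) (e : Fin M × Bool → Fin n) (B : Finset (Fin M))
    (A : Matrix (Fin n) (Fin n) R) : R :=
  ∑ m ∈ (pms n).filter (fun m => ∀ i ∈ B, m (e (i, false)) = e (i, true)),
    f m * ∏ v ∈ univ.filter (fun v => ¬ CovB e B v), A v (m v)

theorem Pair.symm {e : Fin M × Bool → Fin n} {i : Fin M} {v w : Fin n} (h : Pair e i v w) :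
    Pair e i w v := by
  rcases h with ⟨h1, h2⟩ | ⟨h1, h2⟩
  · exact Or.inr ⟨h2, h1⟩
  · exact Or.inl ⟨h2, h1⟩

theorem filter_cov_eq (e : Fin M × Bool → Fin n) (S : Finset (Fin M)) :
    univ.filter (fun v => CovB e S v) = (S ×ˢ (univ : Finset Bool)).image e := by
  ext v
  simp only [mem_filter, mem_univ, true_and, mem_image, mem_product, and_true, CovB, Prod.exists]
  constructor
  · rintro ⟨i, hi, a, h⟩
    exact ⟨i, a, hi, h⟩
  · rintro ⟨i, a, hi, h⟩
    exact ⟨i, hi, a, h⟩

theorem prod_cov {e : Fin M × Bool → Fin n} (he : Function.Injective e) (S : Finset (Fin M))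
    (g : Fin n → R) : ∏ v ∈ univ.filter (fun v => CovB e S v), g v =
      ∏ i ∈ S, (g (e (i, false)) * g (e (i, true))) := by
  rw [filter_cov_eq, prod_image (fun x _ y _ h => he h), prod_product]
  refine prod_congr rfl fun i _ => ?_
  rw [Fintype.prod_bool, mul_comm]

theorem prod_split {e : Fin M × Bool → Fin n} (he : Function.Injective e)
    {B S : Finset (Fin M)} (hBS : B ⊆ S) (g : Fin n → R) :
    ∏ v ∈ univ.filter (fun v => ¬ CovB e B v), g v =
      (∏ i ∈ S \ B, (g (e (i, false)) * g (e (i, true)))) *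
        ∏ v ∈ univ.filter (fun v => ¬ CovB e S v), g v := by
  rw [← prod_cov he (S \ B) g, ← prod_filter_mul_prod_filter_not
    (univ.filter (fun v => ¬ CovB e B v)) (fun v => CovB e S v)]
  have h1 : (univ.filter (fun v => ¬ CovB e B v)).filter (fun v => CovB e S v) =
      univ.filter (fun v => CovB e (S \ B) v) := by
    ext v
    simp only [mem_filter, mem_univ, true_and, CovB, mem_sdiff]
    constructor
    · rintro ⟨h, i, hi, a, hv⟩
      exact ⟨i, ⟨hi, fun hB => h ⟨i, hB, a, hv⟩⟩, a, hv⟩
    · rintro ⟨i, ⟨hi, hB⟩, a, hv⟩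
      refine ⟨?_, i, hi, a, hv⟩
      rintro ⟨j, hj, b, hv'⟩
      have := he (hv'.trans hv.symm)
      rw [Prod.mk.injEq] at this
      exact hB (this.1 ▸ hj)
  have h2 : (univ.filter (fun v => ¬ CovB e B v)).filter (fun v => ¬ CovB e S v) =
      univ.filter (fun v => ¬ CovB e S v) := by
    ext v
    simp only [mem_filter, mem_univ, true_and, CovB]
    constructor
    · exact fun h => h.2
    · intro h
      exact ⟨fun ⟨i, hi, ha⟩ => h ⟨i, hBS hi, ha⟩, h⟩
  rw [h1, h2]

variable (e : Fin M × Bool → Fin n) (A : Matrix (Fin n) (Fin n) R)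

/-- The product for one perfect matching. -/
theorem prod_Amod [CharP R 2] (he : Function.Injective e) (hs : ∀ u v, A u v = A v u)
    (B : Finset (Fin M)) (τ : Fin M → R) {m : Equiv.Perm (Fin n)} (hm : IsPM m) :
    ∏ v, Amod e B τ A v (m v) = ∑ C ∈ (Bᶜ).powerset,
      if (∀ i ∈ B ∪ C, m (e (i, false)) = e (i, true)) then
        (∏ i ∈ C, τ i ^ 2) * ∏ v ∈ univ.filter (fun v => ¬ CovB e (B ∪ C) v), A v (m v)
      else 0 := by
  classical
  set S : Finset (Fin M) := univ.filter (fun i => m (e (i, false)) = e (i, true)) with hS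
  have hmS : ∀ i ∈ S, m (e (i, false)) = e (i, true) := fun i hi => (mem_filter.1 hi).2
  have hmS' : ∀ i ∈ S, m (e (i, true)) = e (i, false) := fun i hi => by
    rw [← hmS i hi, (hm _).2]
  by_cases hB : B ⊆ S
  · have h1 : ∏ v, Amod e B τ A v (m v) =
        (∏ i ∈ S \ B, (A (e (i, false)) (e (i, true)) * A (e (i, true)) (e (i, false)) +
          τ i ^ 2)) * ∏ v ∈ univ.filter (fun v => ¬ CovB e S v), A v (m v) := by
      have e1 : ∏ v, Amod e B τ A v (m v) =
          (∏ i ∈ B, (Amod e B τ A (e (i, false)) (m (e (i, false))) *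
            Amod e B τ A (e (i, true)) (m (e (i, true))))) *
          ∏ v ∈ univ.filter (fun v => ¬ CovB e B v), Amod e B τ A v (m v) := by
        rw [← prod_cov he B (fun v => Amod e B τ A v (m v)), prod_filter_mul_prod_filter_not]
      have e2 : ∏ i ∈ B, (Amod e B τ A (e (i, false)) (m (e (i, false))) *
            Amod e B τ A (e (i, true)) (m (e (i, true)))) = 1 := by
        refine prod_eq_one fun i hi => ?_
        rw [hmS i (hB hi), hmS' i (hB hi)]
        unfold Amod
        rw [if_pos (Or.inl ⟨i, hi, false, rfl⟩), if_pos (Or.inl ⟨i, hi, true, rfl⟩),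
          if_pos ⟨i, hi, Or.inl ⟨rfl, rfl⟩⟩, if_pos ⟨i, hi, Or.inr ⟨rfl, rfl⟩⟩, one_mul]
      rw [e1, e2, one_mul, prod_split he hB]
      have hcovm : ∀ v, CovB e B (m v) → CovB e B v := by
        rintro v ⟨i, hi, a, hv⟩
        refine ⟨i, hi, !a, ?_⟩
        cases a
        · rw [Bool.not_false, ← hmS i (hB hi), hv, (hm v).2]
        · rw [Bool.not_true, ← hmS' i (hB hi), hv, (hm v).2]
      congr 1
      · refine prod_congr rfl fun i hi => ?_
        rw [mem_sdiff] at hi
        rw [hmS i hi.1, hmS' i hi.1]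
        have hnc : ∀ a, ¬ CovB e B (e (i, a)) := by
          rintro a ⟨j, hj, b, hv⟩
          have := he hv
          rw [Prod.mk.injEq] at this
          exact hi.2 (this.1 ▸ hj)
        have hp : ∀ a, ∑ j, (if Pair e j (e (i, a)) (e (i, !a)) then τ j else 0) = τ i := by
          intro a
          rw [sum_eq_single i]
          · rw [if_pos]
            cases a
            · exact Or.inl ⟨rfl, rfl⟩
            · exact Or.inr ⟨rfl, rfl⟩
          · intro j _ hj
            rw [if_neg]
            rintro (⟨h, _⟩ | ⟨h, _⟩)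
            · have := he h
              rw [Prod.mk.injEq] at this
              exact hj this.1.symm
            · have := he h
              rw [Prod.mk.injEq] at this
              exact hj this.1.symm
          · simp
        have hp0 := hp false
        have hp1 := hp true
        rw [Bool.not_false] at hp0
        rw [Bool.not_true] at hp1
        unfold Amod
        rw [if_neg (by rintro (h | h) <;> exact hnc _ h),
          if_neg (by rintro (h | h) <;> exact hnc _ h), hp0, hp1]
        have h3 : A (e (i, true)) (e (i, false)) = A (e (i, false)) (e (i, true)) := hs _ _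
        rw [h3]
        have h4 : τ i * A (e (i, false)) (e (i, true)) + A (e (i, false)) (e (i, true)) * τ i = 0 := by
          rw [mul_comm (τ i)]
          exact CharTwo.add_self_eq_zero _
        linear_combination h4
      · refine prod_congr rfl fun v hv => ?_
        rw [mem_filter] at hv
        have hvB : ¬ CovB e B v := fun ⟨i, hi, ha⟩ => hv.2 ⟨i, hB hi, ha⟩
        unfold Amod
        rw [if_neg (by
          rintro (h | h)
          · exact hvB h
          · exact hvB (hcovm v h))]
        rw [sum_eq_zero, add_zero]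
        intro i _
        rw [if_neg]
        rintro (⟨h1, h2⟩ | ⟨h1, h2⟩)
        · refine hv.2 ⟨i, ?_, false, h1.symm⟩
          rw [hS, mem_filter]
          exact ⟨mem_univ _, by rw [← h1, h2]⟩
        · refine hv.2 ⟨i, ?_, true, h1.symm⟩
          rw [hS, mem_filter]
          refine ⟨mem_univ _, ?_⟩
          rw [← h2, (hm v).2, h1]
    rw [h1]
    have h5 : ∏ i ∈ S \ B, (A (e (i, false)) (e (i, true)) * A (e (i, true)) (e (i, false)) +
          τ i ^ 2) = ∑ C ∈ (S \ B).powerset, (∏ i ∈ C, τ i ^ 2) *
          ∏ i ∈ (S \ B) \ C, (A (e (i, false)) (e (i, true)) * A (e (i, true)) (e (i, false))) := by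
      rw [← prod_add]
      exact prod_congr rfl fun i _ => add_comm _ _
    rw [h5, sum_mul]
    symm
    rw [← sum_filter]
    have h6 : (Bᶜ).powerset.filter (fun C => ∀ i ∈ B ∪ C, m (e (i, false)) = e (i, true)) =
        (S \ B).powerset := by
      ext C
      rw [mem_filter, mem_powerset, mem_powerset]
      constructor
      · rintro ⟨h, h'⟩ i hi
        rw [mem_sdiff]
        refine ⟨?_, mem_compl.1 (h hi)⟩
        rw [hS, mem_filter]
        exact ⟨mem_univ _, h' i (mem_union_right _ hi)⟩
      · intro h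
        refine ⟨fun i hi => mem_compl.2 (mem_sdiff.1 (h hi)).2, fun i hi => ?_⟩
        rcases mem_union.1 hi with h' | h'
        · exact hmS i (hB h')
        · exact hmS i (mem_sdiff.1 (h h')).1
    rw [h6]
    refine sum_congr rfl fun C hC => ?_
    rw [mem_powerset] at hC
    have hBC : B ∪ C ⊆ S := by
      intro i hi
      rcases mem_union.1 hi with h' | h'
      · exact hB h'
      · exact (mem_sdiff.1 (hC h')).1
    rw [prod_split he hBC (fun v => A v (m v)), mul_assoc]
    congr 1
    congr 1
    have h7 : S \ (B ∪ C) = (S \ B) \ C := by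
      rw [sdiff_sdiff_left]
      rfl
    rw [h7]
    refine prod_congr rfl fun i hi => ?_
    have hiS : i ∈ S := (mem_sdiff.1 (mem_sdiff.1 hi).1).1
    rw [hmS i hiS, hmS' i hiS]
  · rw [sum_eq_zero]
    · obtain ⟨i, hiB, hiS⟩ := not_subset.1 hB
      refine prod_eq_zero (mem_univ (e (i, false))) ?_
      unfold Amod
      rw [if_pos (Or.inl ⟨i, hiB, false, rfl⟩), if_neg]
      rintro ⟨j, hj, h | h⟩
      · have := he h.1
        rw [Prod.mk.injEq] at this
        apply hiS
        rw [hS, mem_filter]
        refine ⟨mem_univ _, ?_⟩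
        rw [h.2, this.1]
      · have := he h.1
        rw [Prod.mk.injEq] at this
        exact absurd this.2 (by simp)
    · intro C _
      rw [if_neg]
      intro h
      apply hB
      intro i hi
      rw [hS, mem_filter]
      exact ⟨mem_univ _, h i (mem_union_left _ hi)⟩

/-- **Taylor expansion.** -/
theorem T_Amod [CharP R 2] (f : Equiv.Perm (Fin n) → R) (he : Function.Injective e)
    (hs : ∀ u v, A u v = A v u) (B : Finset (Fin M)) (τ : Fin M → R) :
    T f (Amod e B τ A) = ∑ C ∈ (Bᶜ).powerset, (∏ i ∈ C, τ i ^ 2) * cS f e (B ∪ C) A := by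
  classical
  unfold T
  have h1 : ∀ m ∈ pms n, f m * ∏ v, Amod e B τ A v (m v) = ∑ C ∈ (Bᶜ).powerset,
      if (∀ i ∈ B ∪ C, m (e (i, false)) = e (i, true)) then
        (∏ i ∈ C, τ i ^ 2) * (f m * ∏ v ∈ univ.filter (fun v => ¬ CovB e (B ∪ C) v), A v (m v))
      else 0 := by
    intro m hm
    rw [prod_Amod e A he hs B τ (mem_pms.1 hm), mul_sum]
    refine sum_congr rfl fun C _ => ?_
    split_ifs
    · ring
    · ring
  rw [sum_congr rfl h1, sum_comm]
  refine sum_congr rfl fun C _ => ?_
  rw [cS, mul_sum, sum_filter]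

/-- If only the last Taylor coefficient is nonzero, then the expansion has one term. -/
theorem T_Amod_top [CharP R 2] (f : Equiv.Perm (Fin n) → R) (he : Function.Injective e)
    (hs : ∀ u v, A u v = A v u) (B : Finset (Fin M)) (τ : Fin M → R)
    (h : ∀ C : Finset (Fin M), C ≠ univ → cS f e C A = 0) :
    T f (Amod e B τ A) = (∏ i ∈ Bᶜ, τ i ^ 2) * cS f e univ A := by
  rw [T_Amod e A f he hs B τ, sum_eq_single Bᶜ]
  · rw [union_compl]
  · intro C hC hne
    rw [h (B ∪ C), mul_zero]
    intro hu
    apply hne
    rw [mem_powerset] at hC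
    apply hC.antisymm
    intro i hi
    have := hu ▸ mem_univ i
    rcases mem_union.1 this with h' | h'
    · exact absurd h' (mem_compl.1 hi)
    · exact h'
  · intro h'
    exact absurd (mem_powerset_self _) h'

end Pool.Agent.Lib.MP_0c183c_P9S
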