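import Pool.Agent.Lib.MP_0c183c_P9S.LevelOf

/-! # The absorption formula and genericity -/

set_option autoImplicit false
set_option linter.unusedSectionVars false

namespace Pool.Agent.Lib.MP_0c183c_P9S

open Matrix Finset Module
open Pool.Agent.Lib.MP_0c183c_co_P9W (Level Generic entries absorb completed)

variable {M n : ℕ} {K Ω : Type*} [Field K] [Field Ω] [Algebra K Ω]

/-- The block formula. -/
theorem absorb_inv [CharP Ω 2] (A : Matrix (Fin n) (Fin n) Ω) (hs : ∀ u v, A u v = A v u)
    (h0 : ∀ v, A v v = 0) (hd : A.det ≠ 0) (s u : Fin n) (τ t : Ω)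
    (ht : t = τ / (1 + τ * A⁻¹ s u)) (hne : 1 + τ * A⁻¹ s u ≠ 0) (v w : Fin n) :
    (A + τ • (single s u (1 : Ω) + single u s 1) : Matrix (Fin n) (Fin n) Ω)⁻¹ v w =
      A⁻¹ v w + t * (A⁻¹ v s * A⁻¹ u w + A⁻¹ v u * A⁻¹ s w) := by
  set P := A⁻¹ with hP
  have hPs : ∀ u v, P u v = P v u := inv_symm A hs
  have hP0 : ∀ v, P v v = 0 := inv_diag A hs h0 hd
  have hAP : A * P = 1 := Matrix.mul_nonsing_inv _ (isUnit_iff_ne_zero.2 hd)
  set E : Matrix (Fin n) (Fin n) Ω := single s u (1 : Ω) + single u s 1 with hE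
  have hEPE : E * P * E = P s u • E := by
    rw [hE]
    simp only [Matrix.add_mul, Matrix.mul_add, single_mul_mul_single, hP0, one_mul, mul_one,
      mul_zero, single_zero, zero_mul, add_zero, zero_add, smul_add, smul_single, smul_eq_mul]
    rw [hPs u s, add_comm]
  have hmul : (A + τ • E) * (P + t • (P * E * P)) = 1 := by
    have e1 : (A + τ • E) * (P + t • (P * E * P)) =
        A * P + t • ((A * P) * E * P) + τ • (E * P) + (τ * t) • ((E * P * E) * P) := by
      simp only [Matrix.add_mul, Matrix.mul_add, Matrix.smul_mul, Matrix.mul_smul, smul_smul,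
        Matrix.mul_assoc, smul_add, mul_comm t τ]
      abel
    rw [e1, hEPE, hAP, Matrix.one_mul, Matrix.smul_mul, smul_smul, add_assoc, add_assoc,
      ← add_smul, ← add_smul]
    have e2 : t + (τ + τ * t * P s u) = 0 := by
      have e3 : t * (1 + τ * P s u) = τ := by rw [ht, div_mul_cancel₀ _ hne]
      have e4 : t + (τ + τ * t * P s u) = t * (1 + τ * P s u) + τ := by ring
      rw [e4, e3, CharTwo.add_self_eq_zero]
    rw [e2, zero_smul, add_zero]
  rw [Matrix.inv_eq_right_inv hmul, Matrix.add_apply, Matrix.smul_apply, smul_eq_mul]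
  congr 2
  rw [hE, Matrix.mul_add, Matrix.add_mul, Matrix.add_apply]
  have h1 : ∀ (a b : Fin n), (P * single a b (1 : Ω) * P) v w = P v a * P b w := by
    intro a b
    rw [Matrix.mul_apply, sum_eq_single b]
    · rw [mul_single_apply_same, mul_one]
    · intro c _ hc
      rw [mul_single_apply_of_ne _ _ _ _ _ hc, zero_mul]
    · simp
  rw [h1, h1]

theorem AT_erase (e : Fin M × Bool → Fin n) (he : Function.Injective e) (t : Fin M → Ω)
    (A : Matrix (Fin n) (Fin n) Ω) (T : Finset (Fin M)) {b : Fin M} (hb : b ∈ T) :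
    AT e t A (T.erase b) = AT e t A T +
      t b • (single (e (b, false)) (e (b, true)) (1 : Ω) + single (e (b, true)) (e (b, false)) 1) := by
  ext v w
  rw [Matrix.add_apply, Matrix.smul_apply, Matrix.add_apply]
  unfold AT
  rw [Amod_empty, Amod_empty, add_assoc]
  congr 1
  rw [← add_sum_erase _ _ (mem_univ b), ← add_sum_erase _ (fun i => if Pair e i v w then
    tau t T i else 0) (mem_univ b)]
  have h1 : ∑ x ∈ univ.erase b, (if Pair e x v w then tau t (T.erase b) x else 0) =
      ∑ x ∈ univ.erase b, (if Pair e x v w then tau t T x else 0) := by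
    refine sum_congr rfl fun i hi => ?_
    have : tau t (T.erase b) i = tau t T i := by
      unfold tau
      simp only [mem_erase, ne_eq, ne_of_mem_erase hi, not_false_eq_true, true_and]
    rw [this]
  rw [h1]
  have h2 : tau t T b = 0 := by
    unfold tau
    rw [if_pos hb]
  have h3 : tau t (T.erase b) b = t b := by
    unfold tau
    rw [if_neg (notMem_erase b T)]
  rw [h2, h3, ite_self, zero_add, add_comm]
  congr 1
  have hne : e (b, false) ≠ e (b, true) := fun h => by
    have := he h
    simp at this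
  by_cases h4 : v = e (b, false) ∧ w = e (b, true)
  · rw [if_pos (show Pair e b v w from Or.inl h4), h4.1, h4.2]
    simp [single, hne.symm]
  · by_cases h5 : v = e (b, true) ∧ w = e (b, false)
    · rw [if_pos (show Pair e b v w from Or.inr h5), h5.1, h5.2]
      simp [single, hne]
    · rw [if_neg (show ¬ Pair e b v w by rintro (h | h); exacts [h4 h, h5 h])]
      have h6 : single (e (b, false)) (e (b, true)) (1 : Ω) v w = 0 := by
        rw [single_apply, if_neg]
        rintro ⟨h, h'⟩
        exact h4 ⟨h.symm, h'.symm⟩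
      have h7 : single (e (b, true)) (e (b, false)) (1 : Ω) v w = 0 := by
        rw [single_apply, if_neg]
        rintro ⟨h, h'⟩
        exact h5 ⟨h.symm, h'.symm⟩
      rw [h6, h7, add_zero, smul_zero]

/-- The inverse of a matrix with entries in a subfield has entries in the subfield. -/
theorem inv_mem {L : IntermediateField K Ω} (A : Matrix (Fin n) (Fin n) Ω)
    (hA : ∀ u v, A u v ∈ L) (hd : A.det ≠ 0) (u v : Fin n) : A⁻¹ u v ∈ L := by
  set N : Matrix (Fin n) (Fin n) L := fun u v => ⟨A u v, hA u v⟩ with hN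
  have h1 : N.map (algebraMap L Ω) = A := by
    ext u v
    rfl
  have h2 : N.det ≠ 0 := by
    intro h
    apply hd
    rw [← h1]
    have := RingHom.map_det (algebraMap L Ω) N
    rw [h, map_zero] at this
    exact this.symm
  have h3 : N * N⁻¹ = 1 := Matrix.mul_nonsing_inv _ (isUnit_iff_ne_zero.2 h2)
  have h4 : A * (N⁻¹.map (algebraMap L Ω)) = 1 := by
    rw [← h1, ← Matrix.map_mul, h3]
    exact Matrix.map_one _ (map_zero _) (map_one _)
  rw [Matrix.inv_eq_right_inv h4]
  exact (N⁻¹ u v).2

theorem generic_of_transcendental [Algebra (ZMod 2) Ω] (L : IntermediateField K Ω) (X : Set Ω)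
    (hX : ∀ z ∈ X, z ∈ L) {t : Ω} (ht : Transcendental L t) :
    Transcendental (Algebra.adjoin (ZMod 2) X) t := by
  have hle : ∀ z ∈ Algebra.adjoin (ZMod 2) X, z ∈ L := by
    intro z hz
    induction hz using Algebra.adjoin_induction with
    | mem z h => exact hX z h
    | algebraMap r =>
      obtain ⟨m, rfl⟩ : ∃ m : ℕ, (m : ZMod 2) = r := ⟨r.val, ZMod.natCast_zmod_val r⟩
      rw [map_natCast]
      exact natCast_mem L m
    | add z w _ _ h1 h2 => exact L.add_mem h1 h2
    | mul z w _ _ h1 h2 => exact L.mul_mem h1 h2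
  let φ : Algebra.adjoin (ZMod 2) X →+* L :=
    { toFun := fun z => ⟨z.1, hle z.1 z.2⟩
      map_zero' := rfl
      map_one' := rfl
      map_add' := fun _ _ => rfl
      map_mul' := fun _ _ => rfl }
  have hφ : Function.Injective φ := fun z w h => Subtype.ext (congrArg (fun y : L => (y : Ω)) h)
  rintro ⟨q, hq0, hq⟩
  apply ht
  refine ⟨q.map φ, (Polynomial.map_ne_zero_iff hφ).2 hq0, ?_⟩
  rw [Polynomial.aeval_def, Polynomial.eval₂_map]
  exact hq

/-- The transcendental parameter. -/
theorem transc {t : Fin M → Ω} (ht : AlgebraicIndependent K t) (b : Fin M) :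
    Transcendental (IntermediateField.adjoin K (t '' {i | i ≠ b})) (t b) := by
  have h1 := ht.transcendental_adjoin (s := {i | i ≠ b}) (i := b) (by simp)
  intro h2
  apply h1
  open IntermediateField.algebraAdjoinAdjoin in
  exact (IsFractionRing.isAlgebraic_iff (Algebra.adjoin K (t '' {i | i ≠ b}))
    (IntermediateField.adjoin K (t '' {i | i ≠ b})) Ω).2 h2

theorem transc_absorb [CharP Ω 2] {L : IntermediateField K Ω} {τ p : Ω} (hτ : Transcendental L τ)
    (hp : p ∈ L) : 1 + τ * p ≠ 0 ∧ Transcendental L (τ / (1 + τ * p)) := by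
  have hpa : IsAlgebraic L p := isAlgebraic_algebraMap (⟨p, hp⟩ : L)
  have h1 : 1 + τ * p ≠ 0 := by
    intro h
    apply hτ
    have h2 : τ * p = 1 := (CharTwo.add_eq_zero.1 h).symm
    have h3 : p ≠ 0 := by
      rintro rfl
      rw [mul_zero] at h2
      exact zero_ne_one h2
    rw [eq_inv_of_mul_eq_one_left h2]
    exact hpa.inv
  refine ⟨h1, ?_⟩
  intro h
  apply hτ
  set t := τ / (1 + τ * p) with ht
  have h2 : t * (1 + τ * p) = τ := div_mul_cancel₀ _ h1
  have h3 : τ * (1 + t * p) = t := by
    have : τ * (1 + t * p) + t = (t * (1 + τ * p) + τ) := by ring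
    rw [h2, CharTwo.add_self_eq_zero] at this
    exact CharTwo.add_eq_zero.1 this
  have h4 : 1 + t * p ≠ 0 := by
    intro h5
    rw [h5, mul_zero] at h3
    rw [← h3, zero_mul] at h2
    have h6 : (0 : Ω) = τ := h2
    apply hτ
    rw [← h6]
    exact isAlgebraic_zero
  have h5 : τ = t / (1 + t * p) := by
    rw [eq_div_iff h4, h3]
  rw [h5, div_eq_mul_inv]
  exact h.mul ((isAlgebraic_one.add (h.mul hpa)).inv)

theorem AT_mem (e : Fin M × Bool → Fin n) {t : Fin M → Ω} (A : Matrix (Fin n) (Fin n) K)
    (T : Finset (Fin M)) {b : Fin M} (hb : b ∈ T) (u v : Fin n) :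
    AT e t (A.map (algebraMap K Ω)) T u v ∈ IntermediateField.adjoin K (t '' {i | i ≠ b}) := by
  unfold AT
  rw [Amod_empty]
  refine add_mem ?_ (sum_mem fun i _ => ?_)
  · exact (IntermediateField.adjoin K (t '' {i | i ≠ b})).algebraMap_mem _
  · split_ifs
    · unfold tau
      split_ifs with h1
      · exact zero_mem _
      · apply IntermediateField.subset_adjoin
        exact ⟨i, fun h => h1 (h ▸ hb), rfl⟩
    · exact zero_mem _

end Pool.Agent.Lib.MP_0c183c_P9S
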