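import Pool.Agent.Lib.MP_0c183c_P9S.Expand
import Pool.Agent.Lib.MP_0c183c_P9S.Deg2

/-! # Completions of the inverse and the modified matrices -/

set_option autoImplicit false
set_option linter.unusedSectionVars false

namespace Pool.Agent.Lib.MP_0c183c_P9S

open Matrix Finset Module
open Pool.Agent.Lib.MP_0c183c_co (IsPM InG pms cr lin T mem_pms)

variable {M n : ℕ} {Ω : Type*} [Field Ω] [CharP Ω 2]

/-- Alternating forms. -/
theorem alt_sum (A : Matrix (Fin n) (Fin n) Ω) (hs : ∀ u v, A u v = A v u)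
    (h0 : ∀ v, A v v = 0) (g : Fin n → Ω) : ∑ u, ∑ w, g u * A u w * g w = 0 := by
  rw [← sum_product' univ univ (fun u w => g u * A u w * g w)]
  refine sum_involution (fun x _ => (x.2, x.1)) ?_ ?_ (fun _ _ => mem_univ _) (fun _ _ => rfl)
  · rintro ⟨u, w⟩ _
    simp only
    rw [hs w u]
    have : g u * A u w * g w + g w * A u w * g u = g u * A u w * g w + g u * A u w * g w := by ring
    rw [this, CharTwo.add_self_eq_zero]
  · rintro ⟨u, w⟩ _ hne heq
    have h1 : w = u := (Prod.mk.inj heq).1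
    apply hne
    subst h1
    simp only
    rw [h0, mul_zero, zero_mul]

theorem inv_symm (A : Matrix (Fin n) (Fin n) Ω) (hs : ∀ u v, A u v = A v u) (u v : Fin n) :
    A⁻¹ u v = A⁻¹ v u := by
  have h1 : Aᵀ = A := by
    ext i j
    exact hs j i
  have h2 : (A⁻¹)ᵀ = A⁻¹ := by rw [Matrix.transpose_nonsing_inv, h1]
  exact (congrFun (congrFun h2 u) v).symm

theorem inv_diag (A : Matrix (Fin n) (Fin n) Ω) (hs : ∀ u v, A u v = A v u)
    (h0 : ∀ v, A v v = 0) (hd : A.det ≠ 0) (v : Fin n) : A⁻¹ v v = 0 := by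
  have hu : IsUnit A.det := isUnit_iff_ne_zero.2 hd
  have h1 : A⁻¹ * A * A⁻¹ = A⁻¹ := by rw [Matrix.nonsing_inv_mul _ hu, Matrix.one_mul]
  have h2 := congrFun (congrFun h1 v) v
  rw [← h2, Matrix.mul_apply]
  simp only [Matrix.mul_apply, sum_mul]
  rw [sum_comm, ← alt_sum A hs h0 (fun u => A⁻¹ v u)]
  refine sum_congr rfl fun u _ => sum_congr rfl fun w _ => ?_
  rw [inv_symm A hs w v]

theorem Amod_symm (e : Fin M × Bool → Fin n) (B : Finset (Fin M)) (τ : Fin M → Ω)
    (A : Matrix (Fin n) (Fin n) Ω) (hs : ∀ u v, A u v = A v u) (u v : Fin n) :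
    Amod e B τ A u v = Amod e B τ A v u := by
  have h1 : ∀ i, Pair e i u v ↔ Pair e i v u := fun i => ⟨Pair.symm, Pair.symm⟩
  unfold Amod
  simp only [h1, hs u v]
  by_cases h : CovB e B u ∨ CovB e B v
  · rw [if_pos h, if_pos h.symm]
  · rw [if_neg h, if_neg (fun h' => h h'.symm)]

theorem Amod_diag {e : Fin M × Bool → Fin n} (he : Function.Injective e) (B : Finset (Fin M))
    (τ : Fin M → Ω) (A : Matrix (Fin n) (Fin n) Ω) (h0 : ∀ v, A v v = 0) (v : Fin n) :
    Amod e B τ A v v = 0 := by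
  have h1 : ∀ i, ¬ Pair e i v v := by
    rintro i (⟨h, h'⟩ | ⟨h, h'⟩)
    · have := he (h.symm.trans h')
      simp at this
    · have := he (h.symm.trans h')
      simp at this
  unfold Amod
  simp [h1, h0]

/-- Rows of the modified matrix. -/
theorem sum_pair {e : Fin M × Bool → Fin n} (he : Function.Injective e) (τ : Fin M → Ω)
    (h : Fin n → Ω) (i : Fin M) (a : Bool) :
    ∑ w, (∑ j, if Pair e j (e (i, a)) w then τ j else 0) * h w = τ i * h (e (i, !a)) := by
  rw [sum_eq_single (e (i, !a))]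
  · congr 1
    rw [sum_eq_single i]
    · rw [if_pos]
      cases a
      · exact Or.inl ⟨rfl, rfl⟩
      · exact Or.inr ⟨rfl, rfl⟩
    · intro j _ hj
      rw [if_neg]
      rintro (⟨h, _⟩ | ⟨h, _⟩) <;>
      · have := he h
        rw [Prod.mk.injEq] at this
        exact hj this.1.symm
    · simp
  · intro w _ hw
    rw [sum_eq_zero, zero_mul]
    intro j _
    rw [if_neg]
    rintro (⟨h1, h2⟩ | ⟨h1, h2⟩)
    · have := he h1
      rw [Prod.mk.injEq] at this
      apply hw
      rw [h2, this.1, this.2]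
      rfl
    · have := he h1
      rw [Prod.mk.injEq] at this
      apply hw
      rw [h2, this.1, this.2]
      rfl
  · simp

theorem sum_pair_zero {e : Fin M × Bool → Fin n} (τ : Fin M → Ω)
    (h : Fin n → Ω) (v : Fin n) (hv : ∀ x, e x ≠ v) :
    ∑ w, (∑ j, if Pair e j v w then τ j else 0) * h w = 0 := by
  refine sum_eq_zero fun w _ => ?_
  rw [sum_eq_zero, zero_mul]
  intro j _
  rw [if_neg]
  rintro (⟨h1, h2⟩ | ⟨h1, h2⟩)
  · exact hv _ h1.symm
  · exact hv _ h1.symm

/-- The completed array over `T`. -/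
def comp (T : Finset (Fin M)) (P : Fin M × Bool → Fin M × Bool → Ω) (θ : Fin M → Ω) :
    Matrix (T × Bool) (T × Bool) Ω :=
  fun x y => if x.1 = y.1 then (if x.2 = y.2 then 0 else θ x.1.1) else P (x.1.1, x.2) (y.1.1, y.2)

/-- Kernel vectors of the completed array give kernel vectors of a modified matrix. -/
theorem rank_comp {e : Fin M × Bool → Fin n} (he : Function.Injective e)
    (A : Matrix (Fin n) (Fin n) Ω) (hs : ∀ u v, A u v = A v u) (h0 : ∀ v, A v v = 0)
    (T : Finset (Fin M)) (τ₀ : Fin M → Ω) (hT : ∀ i ∈ T, τ₀ i = 0)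
    (hd : (Amod e ∅ τ₀ A).det ≠ 0) (θ : Fin M → Ω) :
    ∃ (B : Finset (Fin M)) (τ : Fin M → Ω), (∀ i ∉ B, i ∉ T → τ i = τ₀ i) ∧ B ⊆ T ∧
      (∀ i ∈ T, i ∉ B → τ i ≠ 0) ∧
      (Amod e B τ A).rank + 2 * T.card ≤
        (comp T (fun x y => (Amod e ∅ τ₀ A)⁻¹ (e x) (e y)) θ).rank + n := by
  classical
  set AT := Amod e ∅ τ₀ A with hAT
  set P := AT⁻¹ with hP
  have hATs : ∀ u v, AT u v = AT v u := Amod_symm e ∅ τ₀ A hs
  have hAT0 : ∀ v, AT v v = 0 := Amod_diag he ∅ τ₀ A h0
  have hPs : ∀ u v, P u v = P v u := inv_symm AT hATs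
  have hP0 : ∀ v, P v v = 0 := inv_diag AT hATs hAT0 hd
  have hAP : AT * P = 1 := Matrix.mul_nonsing_inv _ (isUnit_iff_ne_zero.2 hd)
  set θ' : Fin M → Ω := fun i => θ i + P (e (i, false)) (e (i, true)) with hθ'
  set B := T.filter (fun i => θ' i = 0) with hB
  set τ : Fin M → Ω := fun i => if i ∈ T then (θ' i)⁻¹ else τ₀ i with hτ
  have hmB : ∀ i, i ∈ B ↔ i ∈ T ∧ θ' i = 0 := fun i => mem_filter
  refine ⟨B, τ, fun i _ hi => by rw [hτ]; exact if_neg hi, filter_subset _ _, ?_, ?_⟩
  · intro i hi hiB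
    rw [hτ]
    simp only
    rw [if_pos hi]
    exact inv_ne_zero fun h => hiB ((hmB i).2 ⟨hi, h⟩)
  set Cm := comp T (fun x y => P (e x) (e y)) θ with hCm
  -- the extension map
  let ext : (T × Bool → Ω) →ₗ[Ω] (Fin n → Ω) :=
    { toFun := fun g v => ∑ x : T × Bool, if e (x.1.1, x.2) = v then g x else 0
      map_add' := fun g g' => by
        ext v
        rw [Pi.add_apply, ← sum_add_distrib]
        exact sum_congr rfl fun x _ => by split_ifs <;> simp
      map_smul' := fun c g => by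
        ext v
        rw [RingHom.id_apply, Pi.smul_apply, smul_eq_mul, mul_sum]
        exact sum_congr rfl fun x _ => by split_ifs <;> simp }
  have hext : ∀ g v, ext g v = ∑ x : T × Bool, if e (x.1.1, x.2) = v then g x else 0 :=
    fun _ _ => rfl
  have hexte : ∀ g (x : T × Bool), ext g (e (x.1.1, x.2)) = g x := by
    intro g x
    rw [hext, sum_eq_single x]
    · rw [if_pos rfl]
    · intro y _ hy
      rw [if_neg]
      intro h
      have := he h
      rw [Prod.mk.injEq] at this
      exact hy (Prod.ext (Subtype.ext this.1) this.2)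
    · simp
  have hext0 : ∀ g v, (∀ i ∈ T, ∀ a, e (i, a) ≠ v) → ext g v = 0 := by
    intro g v hv
    rw [hext]
    refine sum_eq_zero fun x _ => ?_
    rw [if_neg (hv _ x.1.2 _)]
  -- the candidate
  let Φ : (T × Bool → Ω) →ₗ[Ω] (Fin n → Ω) := P.mulVecLin ∘ₗ ext
  have hΦ : ∀ g v, Φ g v = ∑ x : T × Bool, P v (e (x.1.1, x.2)) * g x := by
    intro g v
    have : Φ g v = ∑ w, P v w * ext g w := rfl
    rw [this]
    simp only [hext, mul_sum]
    rw [sum_comm]
    refine sum_congr rfl fun x _ => ?_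
    rw [sum_eq_single (e (x.1.1, x.2))]
    · rw [if_pos rfl]
    · intro w _ hw
      rw [if_neg (Ne.symm hw), mul_zero]
    · simp
  have hAΦ : ∀ g, AT.mulVec (Φ g) = ext g := by
    intro g
    have : Φ g = P.mulVec (ext g) := rfl
    rw [this, Matrix.mulVec_mulVec, hAP, Matrix.one_mulVec]
  have hΦinj : Function.Injective Φ := by
    intro g g' h
    have h1 : ext g = ext g' := by rw [← hAΦ, ← hAΦ, h]
    ext x
    rw [← hexte g x, ← hexte g' x, h1]
  have hker : ∀ g ∈ LinearMap.ker Cm.mulVecLin, Φ g ∈ LinearMap.ker (Amod e B τ A).mulVecLin := by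
    intro g hg
    have hg' : Cm.mulVec g = 0 := LinearMap.mem_ker.1 hg
    have key : ∀ (i : Fin M) (hi : i ∈ T) (a : Bool),
        Φ g (e (i, a)) = θ' i * g (⟨i, hi⟩, !a) := by
      intro i hi a
      have h1 := congrFun hg' (⟨i, hi⟩, a)
      rw [Pi.zero_apply, Matrix.mulVec, dotProduct] at h1
      rw [hΦ]
      rw [Fintype.sum_prod_type] at h1 ⊢
      rw [← add_sum_erase _ _ (mem_univ (⟨i, hi⟩ : T))] at h1 ⊢
      have h2 : ∀ y ∈ (univ : Finset T).erase ⟨i, hi⟩, ∑ b : Bool, Cm (⟨i, hi⟩, a) (y, b) * g (y, b) =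
          ∑ b : Bool, P (e (i, a)) (e (y.1, b)) * g (y, b) := by
        intro y hy
        refine sum_congr rfl fun b _ => ?_
        rw [hCm]
        unfold comp
        rw [if_neg (fun h => (ne_of_mem_erase hy) h.symm)]
      rw [sum_congr rfl h2] at h1
      have h3 : ∑ b : Bool, Cm (⟨i, hi⟩, a) (⟨i, hi⟩, b) * g (⟨i, hi⟩, b) =
          θ i * g (⟨i, hi⟩, !a) := by
        rw [Fintype.sum_bool, hCm]
        unfold comp
        cases a <;> simp
      have h4 : ∑ b : Bool, P (e (i, a)) (e (i, b)) * g (⟨i, hi⟩, b) =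
          P (e (i, false)) (e (i, true)) * g (⟨i, hi⟩, !a) := by
        rw [Fintype.sum_bool]
        cases a
        · simp [hP0]
        · simp [hP0, hPs (e (i, true)) (e (i, false))]
      rw [h3] at h1
      rw [h4]
      have h5 : ∑ y ∈ (univ : Finset T).erase ⟨i, hi⟩,
          ∑ b : Bool, P (e (i, a)) (e (y.1, b)) * g (y, b) = θ i * g (⟨i, hi⟩, !a) := by
        rw [← CharTwo.add_eq_zero, add_comm]
        exact h1
      rw [h5, hθ']
      simp only
      ring
    rw [LinearMap.mem_ker]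
    change (Amod e B τ A).mulVec (Φ g) = 0
    ext v
    rw [Pi.zero_apply, Matrix.mulVec, dotProduct]
    have hcov0 : ∀ w, CovB e B w → Φ g w = 0 := by
      rintro w ⟨i, hi, a, rfl⟩
      obtain ⟨hi1, hi2⟩ := (hmB i).1 hi
      rw [key i hi1 a]
      exact mul_eq_zero_of_left hi2 _
    by_cases hv : CovB e B v
    · refine sum_eq_zero fun w _ => ?_
      unfold Amod
      rw [if_pos (Or.inl hv)]
      split_ifs with h
      · obtain ⟨i, hi, h | h⟩ := h
        · rw [hcov0 w ⟨i, hi, true, h.2.symm⟩, mul_zero]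
        · rw [hcov0 w ⟨i, hi, false, h.2.symm⟩, mul_zero]
      · rw [zero_mul]
    · have h1 : ∀ w, Amod e B τ A v w * Φ g w =
          (A v w + ∑ i, if Pair e i v w then τ i else 0) * Φ g w := by
        intro w
        by_cases hw : CovB e B w
        · rw [hcov0 w hw, mul_zero, mul_zero]
        · unfold Amod
          rw [if_neg (by rintro (h | h); exacts [hv h, hw h])]
      have h2 : ∑ w, (A v w + ∑ i, if Pair e i v w then τ₀ i else 0) * Φ g w = ext g v := by
        rw [← hAΦ g, Matrix.mulVec, dotProduct]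
        refine sum_congr rfl fun w _ => ?_
        congr 1
        rw [hAT]
        unfold Amod
        rw [if_neg (by rintro (⟨i, hi, _⟩ | ⟨i, hi, _⟩) <;> simp at hi)]
      rw [sum_congr rfl fun w _ => h1 w]
      simp only [add_mul, sum_add_distrib] at h2 ⊢
      by_cases hve : ∃ x, e x = v
      · obtain ⟨⟨i, a⟩, rfl⟩ := hve
        rw [sum_pair he] at h2 ⊢
        by_cases hi : i ∈ T
        · have hne : θ' i ≠ 0 := fun h => hv ⟨i, (hmB i).2 ⟨hi, h⟩, a, rfl⟩
          rw [hT i hi, zero_mul, add_zero] at h2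
          rw [h2, key i hi (!a), Bool.not_not, hexte g (⟨i, hi⟩, a)]
          have h3 : τ i = (θ' i)⁻¹ := by rw [hτ]; exact if_pos hi
          rw [h3, ← mul_assoc, inv_mul_cancel₀ hne, one_mul, CharTwo.add_self_eq_zero]
        · have h3 : τ i = τ₀ i := by rw [hτ]; exact if_neg hi
          rw [h3, h2]
          apply hext0
          intro j hj b h
          have := he h
          rw [Prod.mk.injEq] at this
          exact hi (this.1 ▸ hj)
      · push Not at hve
        rw [sum_pair_zero τ _ v hve, add_zero]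
        rw [sum_pair_zero τ₀ _ v hve, add_zero] at h2
        rw [h2]
        exact hext0 g v fun i _ a => hve _
  have h1 := LinearMap.finrank_range_add_finrank_ker Cm.mulVecLin
  have h2 := LinearMap.finrank_range_add_finrank_ker (Amod e B τ A).mulVecLin
  rw [Module.finrank_pi] at h1 h2
  rw [Fintype.card_prod, Fintype.card_coe, Fintype.card_bool] at h1
  rw [Fintype.card_fin] at h2
  have h3 : finrank Ω (LinearMap.ker Cm.mulVecLin) ≤
      finrank Ω (LinearMap.ker (Amod e B τ A).mulVecLin) :=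
    LinearMap.finrank_le_finrank_of_injective
      (f := Φ.restrict hker) (fun x y h => Subtype.ext (hΦinj (congrArg Subtype.val h)))
  have h4 : Cm.rank = finrank Ω (LinearMap.range Cm.mulVecLin) := rfl
  have h5 : (Amod e B τ A).rank = finrank Ω (LinearMap.range (Amod e B τ A).mulVecLin) := rfl
  rw [h4, h5]
  omega

end Pool.Agent.Lib.MP_0c183c_P9S
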