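import Mathlib

/-! # The rank is determined by the vanishing minors -/

set_option autoImplicit false

namespace Pool.Agent.Lib.MP_0c183c_P9S

open Matrix Module

variable {α β F F' : Type*} [Fintype α] [Fintype β] [Field F] [Field F']

theorem exists_rows (A : Matrix α β F) (r : ℕ) (hr : A.rank = r) :
    ∃ x : Fin r → α, LinearIndependent F (A.submatrix x id).row := by
  classical
  have h := A.rank_eq_finrank_span_row
  obtain ⟨f, hf1, _, hf3⟩ := Submodule.exists_fun_fin_finrank_span_eq F (Set.range A.row)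
  choose g hg using hf1
  refine ⟨fun i => g (Fin.cast (by rw [← hr, h]) i), ?_⟩
  have h2 : (A.submatrix (fun i => g (Fin.cast (by rw [← hr, h]) i)) id).row =
      f ∘ (Fin.cast (by rw [← hr, h]) : Fin r → _) := by
    funext i
    exact hg _
  rw [h2]
  exact hf3.comp _ (Fin.cast_injective _)

theorem exists_minor (A : Matrix α β F) (r : ℕ) (hr : A.rank = r) :
    ∃ (x : Fin r → α) (x' : Fin r → β), (A.submatrix x x').det ≠ 0 := by
  obtain ⟨x, hx⟩ := exists_rows A r hr
  have h1 : (A.submatrix x id).rank = r := by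
    have := hx.rank_matrix
    rw [Fintype.card_fin] at this
    exact this
  have h2 : (A.submatrix x id)ᵀ.rank = r := by rw [Matrix.rank_transpose, h1]
  obtain ⟨x', hx'⟩ := exists_rows _ r h2
  refine ⟨x, x', ?_⟩
  have h3 : (((A.submatrix x id)ᵀ).submatrix x' id) = (A.submatrix x x')ᵀ := rfl
  rw [h3] at hx'
  have h4 := Matrix.linearIndependent_rows_iff_isUnit.1 hx'
  rw [Matrix.isUnit_iff_isUnit_det, Matrix.det_transpose] at h4
  exact h4.ne_zero

theorem le_rank_of_minor (A : Matrix α β F) {k : ℕ} (x : Fin k → α) (x' : Fin k → β)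
    (h : (A.submatrix x x').det ≠ 0) : k ≤ A.rank := by
  have h1 := Matrix.rank_of_det_ne_zero (A := A.submatrix x x') h
  rw [Fintype.card_fin] at h1
  rw [← h1]
  exact Matrix.rank_submatrix_le A x x'

theorem rank_le_of_minors (A : Matrix α β F) (A' : Matrix α β F') (c : ℕ)
    (hc : Fintype.card α ≤ c)
    (h : ∀ k ≤ c, ∀ (x : Fin k → α) (x' : Fin k → β), (A'.submatrix x x').det = 0 →
      (A.submatrix x x').det = 0) : A.rank ≤ A'.rank := by
  obtain ⟨x, x', hx⟩ := exists_minor A _ rfl
  refine le_rank_of_minor A' x x' fun h0 => hx (h _ ?_ x x' h0)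
  exact (Matrix.rank_le_card_height A).trans hc

theorem rank_eq_of_minors (A : Matrix α β F) (A' : Matrix α β F') (c : ℕ)
    (hc : Fintype.card α ≤ c)
    (h : ∀ k ≤ c, ∀ (x : Fin k → α) (x' : Fin k → β), (A.submatrix x x').det = 0 ↔
      (A'.submatrix x x').det = 0) : A.rank = A'.rank :=
  le_antisymm (rank_le_of_minors A A' c hc fun k hk x x' => (h k hk x x').2)
    (rank_le_of_minors A' A c hc fun k hk x x' => (h k hk x x').1)

end Pool.Agent.Lib.MP_0c183c_P9S
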