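import Pool.Agent.Lib.MP_0c183c_P9S.Match
import Pool.Agent.Lib.MP_0c183c_P9S.Ker
import Pool.Agent.Lib.MP_0c183c_P9S.Rank
import Pool.Agent.Lib.MP_0c183c_co_P9W.World

/-! # From a minimal matching to a level -/

set_option autoImplicit false
set_option linter.unusedSectionVars false

namespace Pool.Agent.Lib.MP_0c183c_P9S

open Matrix Finset Module
open Pool.Agent.Lib.MP_0c183c_co (IsPM InG pms cr lin T mem_pms)
open Pool.Agent.Lib.MP_0c183c_P9A (cH IsMat Cov fx CGen)
open Pool.Agent.Lib.MP_0c183c_h75B (IsAltOn)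
open Pool.Agent.Lib.MP_0c183c_co_P9W (Level Generic entries absorb completed)

variable {M n : ℕ}

theorem Amod_map {R S : Type*} [CommRing R] [CommRing S] (φ : R →+* S)
    (e : Fin M × Bool → Fin n) (B : Finset (Fin M)) (τ : Fin M → R)
    (A : Matrix (Fin n) (Fin n) R) :
    (Amod e B τ A).map φ = Amod e B (fun i => φ (τ i)) (A.map φ) := by
  ext u v
  simp only [Matrix.map_apply, Amod]
  split_ifs
  · exact map_one φ
  · exact map_zero φ
  · rw [map_add, map_sum]
    congr 1
    refine sum_congr rfl fun i _ => ?_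
    split_ifs
    · rfl
    · exact map_zero φ

theorem Amod_zero {R : Type*} [CommRing R]
    (e : Fin M × Bool → Fin n) (A : Matrix (Fin n) (Fin n) R) : Amod e ∅ (fun _ => 0) A = A := by
  ext u v
  unfold Amod
  rw [if_neg (by rintro (⟨i, hi, _⟩ | ⟨i, hi, _⟩) <;> simp at hi)]
  simp

theorem Amod_empty {R : Type*} [CommRing R] (e : Fin M × Bool → Fin n) (τ : Fin M → R)
    (A : Matrix (Fin n) (Fin n) R) (u v : Fin n) :
    Amod e ∅ τ A u v = A u v + ∑ i, if Pair e i u v then τ i else 0 := by
  unfold Amod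
  rw [if_neg (by rintro (⟨i, hi, _⟩ | ⟨i, hi, _⟩) <;> simp at hi)]

/-- The parameters: zero on `T`, generic elsewhere. -/
def tau {Ω : Type*} [Zero Ω] (t : Fin M → Ω) (T : Finset (Fin M)) : Fin M → Ω :=
  fun i => if i ∈ T then 0 else t i

/-- The matrix in which the elements not in `T` are generic. -/
def AT {Ω : Type*} [CommRing Ω] (e : Fin M × Bool → Fin n) (t : Fin M → Ω)
    (A : Matrix (Fin n) (Fin n) Ω) (T : Finset (Fin M)) : Matrix (Fin n) (Fin n) Ω :=
  Amod e ∅ (tau t T) A

theorem AT_map {R S : Type*} [CommRing R] [CommRing S] (φ : R →+* S)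
    (e : Fin M × Bool → Fin n) (t : Fin M → R) (A : Matrix (Fin n) (Fin n) R)
    (T : Finset (Fin M)) : (AT e t A T).map φ = AT e (fun i => φ (t i)) (A.map φ) T := by
  unfold AT
  rw [Amod_map]
  congr 1
  funext i
  unfold tau
  split_ifs
  · exact map_zero φ
  · rfl

/-- The vanishing of a minor of the inverse in terms of the adjugate. -/
theorem minor_inv {K : Type*} [Field K] {n k : ℕ} (A : Matrix (Fin n) (Fin n) K)
    (hd : A.det ≠ 0) (x x' : Fin k → Fin n) :
    (A⁻¹.submatrix x x').det = 0 ↔ (A.adjugate.submatrix x x').det = 0 := by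
  have h1 : A⁻¹.submatrix x x' = (A.det)⁻¹ • (A.adjugate.submatrix x x') := by
    rw [Matrix.inv_def, Ring.inverse_eq_inv']
    rfl
  rw [h1, Matrix.det_smul, mul_eq_zero, or_iff_right]
  exact pow_ne_zero _ (inv_ne_zero hd)

variable {K Ω : Type*} [Field K] [Field Ω] [Algebra K Ω]

section poly

variable (e : Fin M × Bool → Fin n) (A : Matrix (Fin n) (Fin n) K) (T : Finset (Fin M))

/-- The matrix with variables. -/
noncomputable def Apol : Matrix (Fin n) (Fin n) (MvPolynomial (Fin M) K) :=
  AT e (fun i => MvPolynomial.X i) (A.map MvPolynomial.C) T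

theorem Apol_eval0 : (Apol e A T).map (MvPolynomial.eval (0 : Fin M → K)) = A := by
  unfold Apol
  rw [AT_map]
  have h1 : (A.map MvPolynomial.C).map (MvPolynomial.eval (0 : Fin M → K)) = A := by
    ext u v
    simp
  rw [h1]
  unfold AT
  have h2 : tau (fun i => (MvPolynomial.eval (0 : Fin M → K)) (MvPolynomial.X i)) T =
      fun _ => (0 : K) := by
    funext i
    unfold tau
    simp
  rw [h2, Amod_zero]

theorem Apol_aeval (t : Fin M → Ω) :
    (Apol e A T).map (MvPolynomial.aeval t : MvPolynomial (Fin M) K →ₐ[K] Ω).toRingHom =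
      AT e t (A.map (algebraMap K Ω)) T := by
  unfold Apol
  rw [AT_map]
  congr 1
  · funext i
    exact MvPolynomial.aeval_X t i
  · ext u v
    simp

variable {t : Fin M → Ω} (ht : AlgebraicIndependent K t)
include ht

theorem AT_det (hd : A.det ≠ 0) : (AT e t (A.map (algebraMap K Ω)) T).det ≠ 0 := by
  rw [← Apol_aeval]
  set φ := (MvPolynomial.aeval t : MvPolynomial (Fin M) K →ₐ[K] Ω).toRingHom with hφ
  have h1 : ((Apol e A T).map φ).det = φ (Apol e A T).det := (RingHom.map_det φ _).symm
  rw [h1]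
  intro h2
  have h3 : (Apol e A T).det = 0 := ht (by rw [map_zero]; exact h2)
  apply hd
  have h4 := congrArg (MvPolynomial.eval (0 : Fin M → K)) h3
  rw [RingHom.map_det, map_zero] at h4
  have h5 : (MvPolynomial.eval (0 : Fin M → K)).mapMatrix (Apol e A T) = A := Apol_eval0 e A T
  rw [h5] at h4
  exact h4

theorem minor_of_AT (hd : A.det ≠ 0) {k : ℕ} (x x' : Fin k → Fin n)
    (h : ((AT e t (A.map (algebraMap K Ω)) T)⁻¹.submatrix x x').det = 0) :
    (A⁻¹.submatrix x x').det = 0 := by
  rw [minor_inv _ hd]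
  rw [minor_inv _ (AT_det e A T ht hd), ← Apol_aeval] at h
  set φ := (MvPolynomial.aeval t : MvPolynomial (Fin M) K →ₐ[K] Ω).toRingHom with hφ
  have h1 : ((Apol e A T).map φ).adjugate = ((Apol e A T).adjugate).map φ :=
    (RingHom.map_adjugate φ _).symm
  rw [h1] at h
  have h2 : ((((Apol e A T).adjugate).map φ).submatrix x x').det =
      φ (((Apol e A T).adjugate).submatrix x x').det := (RingHom.map_det φ _).symm
  rw [h2] at h
  have h3 : (((Apol e A T).adjugate).submatrix x x').det = 0 := ht (by rw [map_zero]; exact h)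
  have h4 := congrArg (MvPolynomial.eval (0 : Fin M → K)) h3
  rw [RingHom.map_det, map_zero] at h4
  have h5 : (MvPolynomial.eval (0 : Fin M → K)).mapMatrix
      (((Apol e A T).adjugate).submatrix x x') = A.adjugate.submatrix x x' := by
    have h6 : (MvPolynomial.eval (0 : Fin M → K)).mapMatrix ((Apol e A T).adjugate) =
        A.adjugate := by
      rw [RingHom.map_adjugate]
      congr 1
      exact Apol_eval0 e A T
    rw [← h6]
    rfl
  rw [h5] at h4
  exact h4

end poly

end Pool.Agent.Lib.MP_0c183c_P9S
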