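import Pool.Agent.Lib.MP_0c183c_P9S.Expand

/-! # A matching with nonzero derivative of minimal size -/

set_option autoImplicit false

namespace Pool.Agent.Lib.MP_0c183c_P9S

open Matrix Finset
open Pool.Agent.Lib.MP_0c183c_co (IsPM InG pms cr lin T mem_pms)
open Pool.Agent.Lib.MP_0c183c_P9A (cH IsMat Cov fx)

variable {M n : ℕ} {R : Type*} [CommRing R]

theorem cH_map (f : Equiv.Perm (Fin n) → R) (e : Fin M × Bool → Fin n) (C : Finset (Fin M))
    (A : Matrix (Fin n) (Fin n) R) :
    cH f (C.toList.map (fun i => (e (i, false), e (i, true)))) A = cS f e C A := by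
  have h1 : ∀ m : Equiv.Perm (Fin n), (∀ p ∈ C.toList.map (fun i => (e (i, false), e (i, true))),
      m p.1 = p.2) ↔ ∀ i ∈ C, m (e (i, false)) = e (i, true) := by
    intro m
    simp
  have h2 : ∀ v, Cov (C.toList.map (fun i => (e (i, false), e (i, true)))) v ↔ CovB e C v := by
    intro v
    simp [Cov, CovB]
  unfold cH cS
  simp only [h1, h2]

theorem isMat_map {e : Fin M × Bool → Fin n} (he : Function.Injective e) {G : SimpleGraph (Fin n)}
    (hG : ∀ i, G.Adj (e (i, false)) (e (i, true))) (C : Finset (Fin M)) :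
    IsMat G (C.toList.map (fun i => (e (i, false), e (i, true)))) := by
  refine ⟨?_, ?_⟩
  · intro p hp
    rw [List.mem_map] at hp
    obtain ⟨i, _, rfl⟩ := hp
    exact hG i
  · rw [List.pairwise_map]
    refine List.Pairwise.imp ?_ (Finset.nodup_toList C)
    intro i j hij
    refine ⟨?_, ?_, ?_, ?_⟩ <;>
    · intro h
      have h1 := he h
      rw [Prod.mk.injEq] at h1
      exact hij h1.1

theorem exists_full {G : SimpleGraph (Fin n)} {m : Equiv.Perm (Fin n)} (hm : IsPM m)
    (hG : InG G m) : ∃ H, IsMat G H ∧ ∀ (f : Equiv.Perm (Fin n) → R)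
      (A : Matrix (Fin n) (Fin n) R), cH f H A = f m := by
  set S : Finset (Fin n) := univ.filter (fun v => v < m v) with hS
  have hmS : ∀ v, v ∈ S ↔ v < m v := fun v => by rw [hS, mem_filter]; simp
  refine ⟨S.toList.map (fun v => (v, m v)), ⟨?_, ?_⟩, ?_⟩
  · intro p hp
    rw [List.mem_map] at hp
    obtain ⟨i, _, rfl⟩ := hp
    exact hG i
  · rw [List.pairwise_map]
    have h1 : S.toList.Pairwise (fun a b => a ≠ b ∧ a ∈ S ∧ b ∈ S) := by
      rw [List.pairwise_iff_forall_sublist]
      intro a b hab
      have h2 : [a, b].Nodup := (Finset.nodup_toList S).sublist hab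
      refine ⟨by simpa using h2, ?_, ?_⟩
      · exact Finset.mem_toList.1 (hab.subset (by simp))
      · exact Finset.mem_toList.1 (hab.subset (by simp))
    refine List.Pairwise.imp ?_ h1
    rintro v w ⟨hvw, hv, hw⟩
    rw [hmS] at hv hw
    refine ⟨hvw, ?_, ?_, ?_⟩
    · rintro rfl
      rw [(hm w).2] at hv
      exact absurd hw (lt_asymm hv)
    · rintro rfl
      rw [(hm v).2] at hw
      exact absurd hw (lt_asymm hv)
    · intro h
      exact hvw (m.injective h)
  · intro f A
    have hcov : ∀ v, Cov (S.toList.map (fun v => (v, m v))) v := by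
      intro v
      rcases lt_trichotomy v (m v) with h | h | h
      · refine ⟨(v, m v), ?_, Or.inl rfl⟩
        rw [List.mem_map]
        exact ⟨v, Finset.mem_toList.2 ((hmS v).2 h), rfl⟩
      · exact absurd h.symm (hm v).1
      · refine ⟨(m v, m (m v)), ?_, Or.inr (hm v).2⟩
        rw [List.mem_map]
        refine ⟨m v, Finset.mem_toList.2 ((hmS _).2 ?_), rfl⟩
        rw [(hm v).2]
        exact h
    have hfil : (pms n).filter (fun m' => ∀ p ∈ S.toList.map (fun v => (v, m v)),
        m' p.1 = p.2) = {m} := by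
      ext m'
      rw [mem_filter, mem_singleton]
      constructor
      · rintro ⟨h1, h2⟩
        have h1 := mem_pms.1 h1
        have h3 : ∀ v ∈ S, m' v = m v := by
          intro v hv
          exact h2 (v, m v) (List.mem_map.2 ⟨v, Finset.mem_toList.2 hv, rfl⟩)
        ext v
        congr 1
        rcases lt_trichotomy v (m v) with h | h | h
        · exact h3 v ((hmS v).2 h)
        · exact absurd h.symm (hm v).1
        · have h4 := h3 (m v) ((hmS _).2 (by rw [(hm v).2]; exact h))
          rw [(hm v).2] at h4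
          rw [← h4, (h1 (m v)).2, h4]
      · rintro rfl
        refine ⟨mem_pms.2 hm, fun p hp => ?_⟩
        rw [List.mem_map] at hp
        obtain ⟨v, _, rfl⟩ := hp
        rfl
    unfold cH
    rw [hfil, sum_singleton]
    rw [filter_false_of_mem (fun v _ => not_not.2 (hcov v)), prod_empty, mul_one]

/-- **The minimal matching.** -/
theorem exists_min {K : Type*} [Field K] [CharP K 2] {G : SimpleGraph (Fin n)}
    (A : Matrix (Fin n) (Fin n) K) (x : Fin n → Fin n → ZMod 2) (s₀ : ℕ)
    (hm : ∃ m, IsPM m ∧ InG G m ∧ cr m ≠ lin x m)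
    (h : ∀ H, IsMat G H → H.length ≤ s₀ → cH (fx K x) H A = 0) :
    ∃ (M : ℕ) (e : Fin M × Bool → Fin n), s₀ < M ∧ Function.Injective e ∧
      (∀ i, G.Adj (e (i, false)) (e (i, true))) ∧
      (∀ C : Finset (Fin M), C ≠ univ → cS (fx K x) e C A = 0) ∧ cS (fx K x) e univ A ≠ 0 := by
  classical
  have hex : ∃ k, ∃ H, IsMat G H ∧ H.length = k ∧ cH (fx K x) H A ≠ 0 := by
    obtain ⟨m, h1, h2, h3⟩ := hm
    obtain ⟨H, hH, hc⟩ := exists_full (R := K) h1 h2
    refine ⟨_, H, hH, rfl, ?_⟩
    rw [hc, fx]
    intro h4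
    have h5 : cr m + lin x m = 0 := (ZMod.castHom (dvd_refl 2) K).injective (by rw [h4, map_zero])
    exact h3 (CharTwo.add_eq_zero.1 h5)
  obtain ⟨H, hH, hlen, hne⟩ := Nat.find_spec hex
  have hmin : ∀ H', IsMat G H' → H'.length < H.length → cH (fx K x) H' A = 0 := by
    intro H' h1 h2
    by_contra h3
    exact Nat.find_min hex (m := H'.length) (by omega) ⟨H', h1, rfl, h3⟩
  have hdisj := List.pairwise_iff_getElem.1 hH.disj
  set e : Fin H.length × Bool → Fin n := fun x => if x.2 then (H.get x.1).2 else (H.get x.1).1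
    with he
  have hinj : Function.Injective e := by
    have h1 : ∀ (i j : Fin H.length), i < j → ∀ a b, e (i, a) ≠ e (j, b) := by
      intro i j hij a b
      obtain ⟨h1, h2, h3, h4⟩ := hdisj i.1 j.1 i.2 j.2 hij
      cases a <;> cases b
      · exact h1
      · exact h2
      · exact h3
      · exact h4
    rintro ⟨i, a⟩ ⟨j, b⟩ hij
    rcases lt_trichotomy i j with h2 | h2 | h2
    · exact absurd hij (h1 i j h2 a b)
    · subst h2
      have h3 := hH.adj (H.get i) (List.get_mem _ _)
      cases a <;> cases b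
      · rfl
      · exact absurd hij h3.ne
      · exact absurd hij h3.ne'
      · rfl
    · exact absurd hij.symm (h1 j i h2 b a)
  have hadj : ∀ i, G.Adj (e (i, false)) (e (i, true)) := fun i =>
    hH.adj (H.get i) (List.get_mem _ _)
  refine ⟨H.length, e, ?_, hinj, hadj, ?_, ?_⟩
  · by_contra hcon
    exact hne (h H hH (not_lt.1 hcon))
  · intro C hC
    rw [← cH_map]
    refine hmin _ (isMat_map hinj hadj C) ?_
    rw [List.length_map, Finset.length_toList]
    have := Finset.card_lt_univ_of_notMem (s := C) (x := Classical.choose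
      (not_forall.1 fun h => hC (eq_univ_of_forall h))) (Classical.choose_spec
      (not_forall.1 fun h => hC (eq_univ_of_forall h)))
    simpa using this
  · have h1 : cS (fx K x) e univ A = cH (fx K x) H A := by
      have h1 : ∀ m : Equiv.Perm (Fin n), (∀ i ∈ (univ : Finset (Fin H.length)),
          m (e (i, false)) = e (i, true)) ↔ (∀ p ∈ H, m p.1 = p.2) := by
        intro m
        constructor
        · intro h p hp
          obtain ⟨i, rfl⟩ := List.mem_iff_get.1 hp
          exact h i (mem_univ _)
        · intro h i _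
          exact h (H.get i) (List.get_mem _ _)
      have h2 : ∀ v, CovB e univ v ↔ Cov H v := by
        intro v
        constructor
        · rintro ⟨i, _, a, rfl⟩
          refine ⟨H.get i, List.get_mem _ _, ?_⟩
          cases a
          · exact Or.inl rfl
          · exact Or.inr rfl
        · rintro ⟨p, hp, h | h⟩
          · obtain ⟨i, rfl⟩ := List.mem_iff_get.1 hp
            exact ⟨i, mem_univ _, false, h⟩
          · obtain ⟨i, rfl⟩ := List.mem_iff_get.1 hp
            exact ⟨i, mem_univ _, true, h⟩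
      unfold cH cS
      simp only [h1, h2]
    rw [h1]
    exact hne

/-- Transport by field homomorphisms. -/
theorem cS_map {K Ω : Type*} [Field K] [CharP K 2] [Field Ω] [CharP Ω 2] (φ : K →+* Ω)
    (x : Fin n → Fin n → ZMod 2) (e : Fin M × Bool → Fin n) (C : Finset (Fin M))
    (A : Matrix (Fin n) (Fin n) K) :
    cS (fx Ω x) e C (A.map φ) = φ (cS (fx K x) e C A) := by
  unfold cS
  rw [map_sum]
  refine sum_congr rfl fun m _ => ?_
  rw [map_mul, map_prod]
  congr 1
  unfold fx
  have : (φ.comp (ZMod.castHom (dvd_refl 2) K)) = ZMod.castHom (dvd_refl 2) Ω :=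
    RingHom.ext_zmod _ _
  rw [← this]
  rfl

end Pool.Agent.Lib.MP_0c183c_P9S
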