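import Pool.Agent.Lib.MP_0c183c_P9S.Gen

/-! # Levels from the failure of bounded order -/

set_option autoImplicit false
set_option linter.unusedSectionVars false

namespace Pool.Agent.Lib.MP_0c183c_P9S

open Matrix Finset Module
open Pool.Agent.Lib.MP_0c183c_co (IsPM InG pms cr lin T mem_pms)
open Pool.Agent.Lib.MP_0c183c_P9A (cH IsMat Cov fx CGen)
open Pool.Agent.Lib.MP_0c183c_h75B (IsAltOn)
open Pool.Agent.Lib.MP_0c183c_co_P9W (Level Generic entries absorb completed sub)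

/-- **Bounded order** over a fixed field. -/
def BOK (K : Type) [Field K] [CharP K 2] (c s₀ : ℕ) : Prop :=
  ∀ (n : ℕ) (G : SimpleGraph (Fin n)) (A : Matrix (Fin n) (Fin n) K), IsAltOn G A → A.det ≠ 0 →
    CGen c G A →
    ∀ x : Fin n → Fin n → ZMod 2, (∃ m, IsPM m ∧ InG G m ∧ cr m ≠ lin x m) →
    ∃ H, IsMat G H ∧ H.length ≤ s₀ ∧ cH (fx K x) H A ≠ 0

variable {M n c : ℕ} {K Ω : Type} [Field K] [Field Ω] [Algebra K Ω] [CharP K 2]

/-- A minimal matching gives a level. -/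
theorem level_of [CharP Ω 2] [Algebra (ZMod 2) Ω] {G : SimpleGraph (Fin n)}
    {A : Matrix (Fin n) (Fin n) K}
    (hA : IsAltOn G A) (hd : A.det ≠ 0) (hgen : CGen c G A) {e : Fin M × Bool → Fin n}
    (he : Function.Injective e) (hG : ∀ i, G.Adj (e (i, false)) (e (i, true)))
    (x : Fin n → Fin n → ZMod 2) (h1 : ∀ C : Finset (Fin M), C ≠ univ → cS (fx K x) e C A = 0)
    (h2 : cS (fx K x) e univ A ≠ 0) {t : Fin M → Ω} (ht : AlgebraicIndependent K t) :
    Nonempty (Level Ω c M) := by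
  set AΩ : Matrix (Fin n) (Fin n) Ω := A.map (algebraMap K Ω) with hAΩ
  have hs : ∀ u v, AΩ u v = AΩ v u := fun u v => congrArg _ (hA.symm u v)
  have h0 : ∀ v, AΩ v v = 0 := fun v => by
    rw [hAΩ, Matrix.map_apply, hA.diag, map_zero]
  have hTs : ∀ T u v, AT e t AΩ T u v = AT e t AΩ T v u := fun T => Amod_symm e ∅ _ AΩ hs
  have hT0 : ∀ T v, AT e t AΩ T v v = 0 := fun T => Amod_diag he ∅ _ AΩ h0
  have hTd : ∀ T, (AT e t AΩ T).det ≠ 0 := fun T => AT_det e A T ht hd
  have hTon : ∀ T, IsAltOn G (AT e t AΩ T) := by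
    intro T
    refine ⟨hTs T, hT0 T, fun u v hne => ?_⟩
    unfold AT at hne
    rw [Amod_empty] at hne
    by_cases h3 : AΩ u v = 0
    · rw [h3, zero_add] at hne
      obtain ⟨i, _, hi⟩ := exists_ne_zero_of_sum_ne_zero hne
      have hi' : Pair e i u v := by
        by_contra hcon
        rw [if_neg hcon] at hi
        exact hi rfl
      rcases hi' with ⟨rfl, rfl⟩ | ⟨rfl, rfl⟩
      · exact hG i
      · exact (hG i).symm
    · apply hA.supp
      intro h4
      apply h3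
      rw [hAΩ, Matrix.map_apply, h4, map_zero]
  have hminor : ∀ T : Finset (Fin M), ∀ k ≤ c, ∀ y y' : Fin k → Fin n,
      ((AT e t AΩ T)⁻¹.submatrix y y').det = 0 ↔ (A⁻¹.submatrix y y').det = 0 := by
    intro T k hk y y'
    constructor
    · exact minor_of_AT e A T ht hd y y'
    · intro h
      exact hgen k hk y y' h Ω (AT e t AΩ T) (hTon T) (hTd T)
  have ht0 : ∀ i, t i ≠ 0 := fun i => ht.ne_zero i
  refine ⟨{
    p := fun T x y => (AT e t AΩ T)⁻¹ (e x) (e y)
    symm := fun T x y => inv_symm _ (hTs T) _ _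
    abs := ?_
    rank := ?_
    nocomp := ?_ }⟩
  · intro T b hb
    set L := IntermediateField.adjoin K (t '' {i | i ≠ b}) with hL
    have hmem : ∀ u v, (AT e t AΩ T)⁻¹ u v ∈ L :=
      inv_mem _ (AT_mem e A T hb) (hTd T)
    obtain ⟨h3, h4⟩ := transc_absorb (transc ht b) (hmem (e (b, false)) (e (b, true)))
    refine ⟨_, generic_of_transcendental L _ ?_ h4, ?_⟩
    · rintro z ⟨y, y', _, _, rfl⟩
      exact hmem _ _
    · intro y y' _ _
      rw [AT_erase e he t AΩ T hb]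
      exact absorb_inv _ (hTs T) (hT0 T) (hTd T) _ _ _ _ rfl h3 _ _
  · intro A' B' _ hc _ T T' _ _
    refine rank_eq_of_minors _ _ c (by rw [Fintype.card_coe]; exact hc) ?_
    intro k hk y y'
    have h3 : ∀ T, (sub (fun x y => (AT e t AΩ T)⁻¹ (e x) (e y)) A' B').submatrix y y' =
        (AT e t AΩ T)⁻¹.submatrix (fun i => e (y i).1) (fun i => e (y' i).1) := fun T => rfl
    rw [h3, h3, hminor T k hk, hminor T' k hk]
  · intro T θ
    by_contra hcon
    rw [not_lt] at hcon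
    obtain ⟨B, τ, hτ1, _, hτ2, hr⟩ := rank_comp he AΩ hs h0 T (tau t T)
      (fun i hi => if_pos hi) (hTd T) θ
    have h3 : (comp T (fun x y => (Amod e ∅ (tau t T) AΩ)⁻¹ (e x) (e y)) θ).rank =
        (completed T (fun x y => (AT e t AΩ T)⁻¹ (e x) (e y)) θ).rank := by
      congr 1
    rw [h3] at hr
    have h4 : (Amod e B τ AΩ).rank + 4 < n := by
      have h5 : (completed T (fun x y => (AT e t AΩ T)⁻¹ (e x) (e y)) θ).rank + 6 ≤
        2 * T.card := by
        convert hcon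
      omega
    have h5 := T_fx_eq_zero (Amod e B τ AΩ) (Amod_symm e B τ AΩ hs) (Amod_diag he B τ AΩ h0) h4 x
    rw [T_Amod_top e AΩ (fx Ω x) he hs B τ (fun C hC => by
      rw [hAΩ, cS_map, h1 C hC, map_zero])] at h5
    rcases mul_eq_zero.1 h5 with h6 | h6
    · rw [prod_eq_zero_iff] at h6
      obtain ⟨i, hi, h7⟩ := h6
      have h8 : τ i = 0 := by simpa using h7
      rw [mem_compl] at hi
      by_cases hiT : i ∈ T
      · exact hτ2 i hiT hi h8
      · rw [hτ1 i hi hiT] at h8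
        unfold tau at h8
        rw [if_neg hiT] at h8
        exact ht0 i h8
    · rw [hAΩ, cS_map] at h6
      exact h2 ((algebraMap K Ω).injective (by rw [h6, map_zero]))

/-- **Supply of levels.** -/
theorem levels_of_not_bok [CharP Ω 2] [Algebra (ZMod 2) Ω] {t : ℕ → Ω}
    (ht : AlgebraicIndependent K t) (h : ∀ c s₀, ¬ BOK K c s₀) (N : ℕ) :
    ∃ c m, N ≤ c ∧ N ≤ m ∧ Nonempty (Level Ω c m) := by
  have h1 := h N N
  unfold BOK at h1
  push Not at h1
  obtain ⟨n, G, A, hA, hd, hgen, x, hm, hH⟩ := h1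
  obtain ⟨M, e, hM, he, hG, hc1, hc2⟩ := exists_min A x N hm hH
  exact ⟨N, M, le_rfl, hM.le, level_of hA hd hgen he hG x hc1 hc2
    (ht.comp (fun i : Fin M => (i : ℕ)) Fin.val_injective)⟩

end Pool.Agent.Lib.MP_0c183c_P9S
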